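import Mathlib

/-!
Nonnegative `k`-sums. For `k = 2` every vector of length `n ≥ 6` with nonnegative sum has at least
`n - 1` nonnegative `2`-sums (and this fails for `n = 5`), so `f 2 = 6`. At `n = 7` the minimum is
also attained by the vector `(3,3,3,3,-4,-4,-4)`, whose nonnegative pairs are the pairs of the first
four coordinates. Hence uniqueness of the extremal configuration fails for `k = 2`, `n = 7`.
-/

set_option autoImplicit false

namespace Pool.Agent.Results.MP_b5758b_co.NotUniqueAtSeven

open Finset

/-- the number of nonnegative `k`-sums of `x` -/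
noncomputable def s {n : ℕ} (k : ℕ) (x : Fin n → ℝ) : ℕ :=
  (((univ : Finset (Fin n)).powersetCard k).filter (fun S => 0 ≤ ∑ i ∈ S, x i)).card

/-- for every `n ≥ m` every vector of length `n` with nonnegative sum has at least
`(n-1).choose (k-1)` nonnegative `k`-sums -/
def Works (k m : ℕ) : Prop :=
  ∀ n : ℕ, m ≤ n → ∀ x : Fin n → ℝ, 0 ≤ ∑ i, x i → (n - 1).choose (k - 1) ≤ s k x

/-- `f k`: the least `m` with `Works k m`. -/
noncomputable def f (k : ℕ) : ℕ := sInf {m : ℕ | Works k m}

/-- pairs inside a set with positive `r`-sums -/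
theorem pairs_ge {ι : Type} [DecidableEq ι] (x : ι → ℝ) (r : ℕ) (hr : 2 ≤ r) :
    ∀ (t : ℕ) (T : Finset ι), T.card = t →
      (∀ S ⊆ T, S.card = r → 0 < ∑ i ∈ S, x i) →
      t + 1 ≤ ((T.powersetCard 2).filter (fun S => 0 ≤ ∑ i ∈ S, x i)).card + r := by
  intro t
  induction t with
  | zero => intro T _ _; omega
  | succ t ih =>
    intro T hT hS
    by_cases hlt : t + 1 < r
    · omega
    push_neg at hlt
    -- choose an r-subset
    obtain ⟨S, hST, hSc⟩ := Finset.exists_subset_card_eq (s := T) (n := r) (by omega)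
    have hpos := hS S hST hSc
    -- S contains a nonneg pair
    have hex : ∃ u ∈ S, ∃ v ∈ S, u ≠ v ∧ 0 ≤ x u + x v := by
      by_contra hcon
      push_neg at hcon
      -- sum over ordered pairs
      have h1 : ∑ u ∈ S, ∑ v ∈ S.erase u, (x u + x v) = 2 * ((r : ℝ) - 1) * ∑ i ∈ S, x i := by
        have : ∀ u ∈ S, ∑ v ∈ S.erase u, (x u + x v) = ((r : ℝ) - 1) * x u + (∑ i ∈ S, x i - x u) := by
          intro u hu
          rw [Finset.sum_add_distrib, Finset.sum_const, Finset.card_erase_of_mem hu, hSc,
            nsmul_eq_mul, Nat.cast_sub (by omega), Finset.sum_erase_eq_sub hu]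
          simp
        rw [Finset.sum_congr rfl this, Finset.sum_add_distrib, ← Finset.mul_sum,
          Finset.sum_sub_distrib, Finset.sum_const, hSc, nsmul_eq_mul]
        ring
      have h2 : ∑ u ∈ S, ∑ v ∈ S.erase u, (x u + x v) ≤ 0 := by
        apply Finset.sum_nonpos
        intro u hu
        apply Finset.sum_nonpos
        intro v hv
        exact (hcon u hu v (Finset.mem_of_mem_erase hv) (Finset.ne_of_mem_erase hv).symm).le
      have h3 : 0 < 2 * ((r : ℝ) - 1) * ∑ i ∈ S, x i := by
        have : (2 : ℝ) ≤ r := by exact_mod_cast hr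
        have : 0 < 2 * ((r : ℝ) - 1) := by linarith
        positivity
      linarith
    obtain ⟨u, hu, v, hv, huv, huv0⟩ := hex
    have huT := hST hu
    have hvT := hST hv
    have hrec := ih (T.erase u) (by rw [Finset.card_erase_of_mem huT]; omega)
      (fun S' hS' hc => hS S' (hS'.trans (Finset.erase_subset _ _)) hc)
    have hsub : insert {u, v} (((T.erase u).powersetCard 2).filter (fun S => 0 ≤ ∑ i ∈ S, x i))
        ⊆ (T.powersetCard 2).filter (fun S => 0 ≤ ∑ i ∈ S, x i) := by
      intro P hP
      rw [Finset.mem_insert] at hP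
      rcases hP with rfl | hP
      · simp only [Finset.mem_filter, Finset.mem_powersetCard]
        refine ⟨⟨?_, Finset.card_pair huv⟩, ?_⟩
        · intro z hz
          simp only [Finset.mem_insert, Finset.mem_singleton] at hz
          rcases hz with rfl | rfl <;> assumption
        · rw [Finset.sum_pair huv]; exact huv0
      · simp only [Finset.mem_filter, Finset.mem_powersetCard] at hP ⊢
        exact ⟨⟨hP.1.1.trans (Finset.erase_subset _ _), hP.1.2⟩, hP.2⟩
    have hnot : ({u, v} : Finset ι) ∉
        ((T.erase u).powersetCard 2).filter (fun S => 0 ≤ ∑ i ∈ S, x i) := by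
      simp only [Finset.mem_filter, Finset.mem_powersetCard, not_and]
      intro h _
      exact absurd (h.1 (Finset.mem_insert_self u {v})) (Finset.notMem_erase u T)
    have := Finset.card_le_card hsub
    rw [Finset.card_insert_of_notMem hnot] at this
    omega

theorem works_two_six : Works 2 6 := by
  intro n hn x hx
  obtain ⟨p, -, hp⟩ := Finset.exists_max_image (univ : Finset (Fin n)) x
    ⟨⟨0, by omega⟩, Finset.mem_univ _⟩
  simp only [Finset.mem_univ, forall_const] at hp
  have hp0 : 0 ≤ x p := by
    by_contra h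
    push_neg at h
    have : ∑ i, x i < 0 := by
      apply Finset.sum_neg (fun i _ => lt_of_le_of_lt (hp i) h)
      exact ⟨p, Finset.mem_univ _⟩
    linarith
  set B : Finset (Fin n) := univ.filter (fun j => x p + x j < 0) with hB
  set G : Finset (Fin n) := univ.filter (fun j => ¬ (x p + x j < 0)) with hG
  have hcard : B.card + G.card = n := by
    rw [hB, hG, Finset.card_filter_add_card_filter_not]; simp
  have hsum : ∑ j ∈ B, x j + ∑ j ∈ G, x j = ∑ i, x i := by
    rw [hB, hG, Finset.sum_filter_add_sum_filter_not]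
  have hpG : p ∈ G := by
    simp only [hG, Finset.mem_filter, Finset.mem_univ, true_and]; linarith
  -- pairs through p
  have hchoose : (n - 1).choose (2 - 1) = n - 1 := by simp
  rw [hchoose]
  -- the family of nonnegative pairs contains pairs {p, j}, j in G \ {p}, and pairs inside G \ {p}
  have hsub : ((G.erase p).image (fun j => ({p, j} : Finset (Fin n)))) ∪
      (((G.erase p).powersetCard 2).filter (fun S => 0 ≤ ∑ i ∈ S, x i)) ⊆
      ((univ : Finset (Fin n)).powersetCard 2).filter (fun S => 0 ≤ ∑ i ∈ S, x i) := by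
    intro P hP
    rw [Finset.mem_union] at hP
    rcases hP with hP | hP
    · rw [Finset.mem_image] at hP
      obtain ⟨j, hj, rfl⟩ := hP
      have hjp : p ≠ j := (Finset.ne_of_mem_erase hj).symm
      simp only [Finset.mem_filter, Finset.mem_powersetCard]
      refine ⟨⟨Finset.subset_univ _, Finset.card_pair hjp⟩, ?_⟩
      rw [Finset.sum_pair hjp]
      have := Finset.mem_of_mem_erase hj
      simp only [hG, Finset.mem_filter, Finset.mem_univ, true_and, not_lt] at this
      exact this
    · simp only [Finset.mem_filter, Finset.mem_powersetCard] at hP ⊢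
      exact ⟨⟨Finset.subset_univ _, hP.1.2⟩, hP.2⟩
  have hdisj : Disjoint ((G.erase p).image (fun j => ({p, j} : Finset (Fin n))))
      (((G.erase p).powersetCard 2).filter (fun S => 0 ≤ ∑ i ∈ S, x i)) := by
    rw [Finset.disjoint_left]
    intro P hP hP'
    rw [Finset.mem_image] at hP
    obtain ⟨j, hj, rfl⟩ := hP
    simp only [Finset.mem_filter, Finset.mem_powersetCard] at hP'
    exact absurd (hP'.1.1 (Finset.mem_insert_self p {j})) (Finset.notMem_erase p G)
  have hinj : ((G.erase p).image (fun j => ({p, j} : Finset (Fin n)))).card = G.card - 1 := by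
    rw [Finset.card_image_of_injOn, Finset.card_erase_of_mem hpG]
    intro j hj j' hj' h
    simp only [Finset.mem_coe] at hj hj'
    have h1 : j ∈ ({p, j'} : Finset (Fin n)) := by
      have : j ∈ ({p, j} : Finset (Fin n)) := by simp
      simpa only [h] using this
    simp only [Finset.mem_insert, Finset.mem_singleton] at h1
    rcases h1 with h1 | h1
    · exact absurd h1 (Finset.ne_of_mem_erase hj)
    · exact h1
  have hGpos : 1 ≤ G.card := Finset.card_pos.mpr ⟨p, hpG⟩
  have hcount : G.card - 1 + (((G.erase p).powersetCard 2).filter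
      (fun S => 0 ≤ ∑ i ∈ S, x i)).card ≤ s 2 x := by
    unfold s
    have := Finset.card_le_card hsub
    rw [Finset.card_union_of_disjoint hdisj, hinj] at this
    exact this
  by_cases hm : B.card = 0
  · omega
  -- bad elements have sum < - m x_p
  have hBsum : ∑ j ∈ B, x j < - (B.card : ℝ) * x p := by
    have : ∑ j ∈ B, x j < ∑ j ∈ B, (- x p) := by
      apply Finset.sum_lt_sum_of_nonempty (Finset.card_pos.mp (Nat.pos_of_ne_zero hm))
      intro j hj
      simp only [hB, Finset.mem_filter, Finset.mem_univ, true_and] at hj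
      linarith
    rw [Finset.sum_const, nsmul_eq_mul] at this
    linarith
  have hMsum : ∀ M : Finset (Fin n), ∑ j ∈ M, x j ≤ (M.card : ℝ) * x p := by
    intro M
    have : ∑ j ∈ M, x j ≤ ∑ j ∈ M, x p := Finset.sum_le_sum (fun j _ => hp j)
    rwa [Finset.sum_const, nsmul_eq_mul] at this
  have hlt : B.card < G.card := by
    by_contra hcon
    push_neg at hcon
    have h1 := hMsum G
    have h2 : (G.card : ℝ) ≤ B.card := by exact_mod_cast hcon
    nlinarith
  have hclaim : ∀ S ⊆ G, S.card = G.card - B.card → 0 < ∑ i ∈ S, x i := by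
    intro S hS hSc
    have h1 : ∑ i ∈ G \ S, x i + ∑ i ∈ S, x i = ∑ i ∈ G, x i := Finset.sum_sdiff hS
    have h2 : (G \ S).card = B.card := by
      rw [Finset.card_sdiff_of_subset hS]; omega
    have h3 := hMsum (G \ S)
    rw [h2] at h3
    linarith
  by_cases hs : G.card - B.card = 1
  · -- all elements of G are positive
    have hall : ∀ j ∈ G, 0 < x j := by
      intro j hj
      have := hclaim {j} (by simpa using hj) (by simp [hs])
      simpa using this
    have hfull : ((G.erase p).powersetCard 2).filter (fun S => 0 ≤ ∑ i ∈ S, x i) =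
        (G.erase p).powersetCard 2 := by
      apply Finset.filter_true_of_mem
      intro S hS
      apply Finset.sum_nonneg
      intro i hi
      rw [Finset.mem_powersetCard] at hS
      exact (hall i (Finset.mem_of_mem_erase (hS.1 hi))).le
    rw [hfull, Finset.card_powersetCard, Finset.card_erase_of_mem hpG] at hcount
    have hg4 : 4 ≤ G.card := by omega
    have hch : G.card - 1 ≤ (G.card - 1).choose 2 := by
      obtain ⟨q, hq⟩ := Nat.exists_eq_add_of_le hg4
      have : G.card - 1 = q + 3 := by omega
      rw [this, Nat.choose_two_right]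
      have : (q + 3) * 2 ≤ (q + 3) * (q + 3 - 1) := by
        apply Nat.mul_le_mul_left; omega
      omega
    omega
  · have := pairs_ge x (G.card - B.card) (by omega) (G.card - 1) (G.erase p)
      (Finset.card_erase_of_mem hpG) (fun S hS hc => hclaim S (hS.trans (Finset.erase_subset _ _)) hc)
    omega

theorem f_two_le : f 2 ≤ 6 := Nat.sInf_le works_two_six

/-- the vector `(3,3,3,3,-4,-4,-4)` over the integers -/
def yz : Fin 7 → ℤ := ![3, 3, 3, 3, -4, -4, -4]

theorem s_yz : s 2 (fun i => (yz i : ℝ)) = 6 := by
  unfold s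
  have h : ((univ : Finset (Fin 7)).powersetCard 2).filter
      (fun S => 0 ≤ ∑ i ∈ S, (fun i => (yz i : ℝ)) i) =
      ((univ : Finset (Fin 7)).powersetCard 2).filter (fun S => 0 ≤ ∑ i ∈ S, yz i) := by
    apply Finset.filter_congr
    intro S _
    simp only
    rw [← Int.cast_sum]
    exact_mod_cast Iff.rfl
  rw [h]
  decide +kernel

/-- The negated form of the question: there are `k ≥ 2`, `n ≥ f k` and a nonincreasing `x` of length
`n` with nonnegative sum, exactly `(n-1).choose (k-1)` nonnegative `k`-sums, and
`x_1 + x_{n-k+2} + ... + x_n < 0` (coordinates are numbered `0, ..., n-1` in Lean, so the last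
`k - 1` coordinates are those `i` with `n ≤ i + (k - 1)`). -/
theorem result :
    ∃ (k n : ℕ) (hn : 0 < n) (x : Fin n → ℝ), 2 ≤ k ∧ k ≤ n ∧ f k ≤ n ∧ 0 ≤ ∑ i, x i ∧ Antitone x ∧
      s k x = (n - 1).choose (k - 1) ∧
      x ⟨0, hn⟩ + ∑ i ∈ univ.filter (fun i : Fin n => n ≤ i.val + (k - 1)), x i < 0 := by
  refine ⟨2, 7, by norm_num, fun i => (yz i : ℝ), le_rfl, by norm_num, f_two_le.trans (by norm_num),
    ?_, ?_, ?_, ?_⟩
  · rw [← Int.cast_sum]
    have : (0 : ℤ) ≤ ∑ i, yz i := by decide
    exact_mod_cast this
  · have : ∀ i j : Fin 7, i ≤ j → yz j ≤ yz i := by decide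
    intro i j hij
    simp only
    exact_mod_cast this i j hij
  · rw [s_yz]; decide
  · simp only
    rw [← Int.cast_sum, ← Int.cast_add]
    have : yz ⟨0, by norm_num⟩ + ∑ i ∈ univ.filter (fun i : Fin 7 => 7 ≤ i.val + (2 - 1)), yz i < 0 := by
      decide
    exact_mod_cast this

end Pool.Agent.Results.MP_b5758b_co.NotUniqueAtSeven
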